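import Pool.Agent.H30.VM.TargetsB
import Pool.Agent.H66.VG.Base

/-!
# Module BT of vmp_modules
-/

set_option autoImplicit false

namespace Pool.Agent.H34.VMP

open MvPolynomial SC Pool.Agent.H27.LV Pool.Agent.H17.VG Pool.Agent.H30.VM
open Pool.Agent.H17.CI (Tup IlT PQT TxT frmT upT RatT)
open Pool.Agent.H66.VG (resL resL_apply dirL dirL_apply res_zero)

theorem pf_BT (hRS : Pool.Agent.H17.VG.T_RS) (hJYT : T_JYT) (hRLT : T_RLT) (hDGT : T_DGT)
    (hPST : T_PST) : T_BT := by
  intro R K _ _ _ _ n ι _ i₀ e F D Z x y hi hS hP hxy hE m hm h2m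
  obtain ⟨-, hfd, hle⟩ := hPST R K n ι i₀ e F D Z x y hi hS hP hxy m hm
  have := hfd
  let f : (Fin (n + 1) → K) →ₗ[K] (ι → Polynomial K) :=
    { toFun := fun w i => res x y (dir w (F i))
      map_add' := by
        intro w w'
        funext i
        have h1 := (hRS K n 0 (F i) (F i) w w' 0 x y 1 1).2.2.2.2.2.2.1
        rw [one_smul, one_smul, C_1, one_mul, one_mul] at h1
        rw [h1]
        exact map_add (resL x y) _ _
      map_smul' := by
        intro a w
        funext i
        have h1 := (hRS K n 0 (F i) (F i) w 0 0 x y a 0).2.2.2.2.2.2.1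
        rw [zero_smul, add_zero, C_0, zero_mul, add_zero, ← MvPolynomial.smul_eq_C_mul] at h1
        rw [h1]
        exact map_smul (resL x y) _ _ }
  let g : (Fin (n + 1) → K) →ₗ[K] YlT R i₀ e F x y (UtT R i₀ F x (IlT e x y)) :=
    f.codRestrict _ (fun v => hJYT R K n ι i₀ e F D Z x y v hS hP hxy)
  have hg : Function.Injective g := by
    rw [injective_iff_map_eq_zero]
    intro v hv
    have h1 : ∀ i, res x y (dir v (F i)) = 0 := by
      intro i
      have h4 : f v = 0 := congrArg Subtype.val hv
      exact congrFun h4 i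
    have h2 := hRLT R K n ι i₀ e F D Z x y v hi hS hP hxy m hm h2m h1
    exact hDGT K n ι i₀ e F Z x y v hi hS.homog hP.on hxy hE h2 h1
  have h3 := LinearMap.finrank_le_finrank_of_injective hg
  rw [Module.finrank_fin_fun] at h3
  omega

end Pool.Agent.H34.VMP
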