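import Pool.Agent.H30.VM.TargetsB
import Pool.Agent.H97.VG.KY

/-!
# Module JYT of vmp_modules
-/

set_option autoImplicit false

namespace Pool.Agent.H34.VMP

open MvPolynomial SC Pool.Agent.H27.LV Pool.Agent.H17.VG Pool.Agent.H30.VM
open Pool.Agent.H17.CI (Tup IlT PQT TxT frmT upT RatT)
open Pool.Agent.H97.VG

theorem pf_JYT (hRS : Pool.Agent.H17.VG.T_RS) (hLF : Pool.Agent.H17.VG.T_LF) : T_JYT := by
  intro R K _ _ _ _ n ι _ i₀ e F D Z x y w hS hP hxy
  obtain ⟨⟨η, hx, hy1⟩, -⟩ := hLF K n x y hxy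
  refine Submodule.subset_span ⟨fun i => ?_, (0, Matrix.of fun i j => w i * η j), 0,
    fun i => lin η * dir w (F i), ⟨rfl, fun i => ?_⟩, fun i => ?_, ?_⟩
  · exact (hRS K n (e i) (dir w (F i)) 0 0 0 0 x y 0 0).2.2.2.2.2.2.2.2.2.2.2.1
      ((hRS K n (e i) (F i) 0 w 0 0 x y 0 0).2.2.2.2.2.2.2.2.2.2.2.2.1 (hS.homog i))
  · have h1 : opF ((0, Matrix.of fun i j => w i * η j) : Op R K n) (F i) =
        lin η * dir w (F i) := by
      rw [opF_eq]
      have h2 : cD (0 : Derivation R K K) (F i) = 0 := by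
        ext m
        rw [cD_coeff, Derivation.zero_apply, coeff_zero]
      rw [h2, zero_add]
      unfold mF dir lin
      rw [Finset.mul_sum]
      refine Finset.sum_congr rfl fun i _ => ?_
      rw [← mul_assoc, mul_comm _ (C (w i)), Finset.mul_sum]
      congr 1
      refine Finset.sum_congr rfl fun j _ => ?_
      change C (w i * η j) * X j = C (w i) * (C (η j) * X j)
      rw [C_mul, mul_assoc]
    rw [h1, Pi.zero_apply, C_0, zero_mul, add_zero]
  · rw [res_mul, res_lin, hx, hy1, Polynomial.C_0, Polynomial.C_1, zero_add, one_mul]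
  · have h1 : opV ((0, Matrix.of fun i j => w i * η j) : Op R K n) x = 0 := by
      funext i
      unfold opV
      rw [Derivation.zero_apply, zero_sub, Pi.zero_apply, neg_eq_zero]
      have h2 : ∑ j, (Matrix.of fun i j => w i * η j) i j * x j = w i * ∑ j, η j * x j := by
        rw [Finset.mul_sum]
        refine Finset.sum_congr rfl fun j _ => ?_
        rw [Matrix.of_apply, mul_assoc]
      rw [h2, hx, mul_zero]
    rw [h1]
    exact Submodule.zero_mem _

end Pool.Agent.H34.VMP
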