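import Pool.Agent.H30.VM.TargetsG
import Pool.Agent.H51.CI.NC

/-!
# Module NC of vmp_modules: a generic family of forms has normal crossings
-/

set_option autoImplicit false

namespace Pool.Agent.H34.VMP

open MvPolynomial SC Pool.Agent.H27.LV Pool.Agent.H17.VG Pool.Agent.H30.VM
open Pool.Agent.H17.CI (Tup IlT PQT TxT frmT upT RatT)
open Pool.Agent.H51.CI (SS SS_pd SS_der frm_SS euler euler2)

theorem pf_NC (hG2 : Pool.Agent.H17.VG.T_G2) : T_NC := by
  classical
  intro k _ _ n ι _ e c hc z hz A hA
  rw [Fintype.linearIndependent_iff]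
  intro g hg i0
  obtain ⟨b, hb⟩ := Function.ne_iff.1 hz
  have hb' : z b ≠ 0 := hb
  let M0 : Mon (n + 1) (e i0 + 1) := ⟨Pi.single b (e i0 + 1), by simp⟩
  obtain ⟨D, hD⟩ := hG2 k _ c hc (fun x => if x = ⟨i0, M0⟩ then 1 else 0)
  set F : ι → MvPolynomial (Fin (n + 1)) k := frmT c with hF
  let G : ι → MvPolynomial (Fin (n + 1)) k := fun i => frm fun M => D (c ⟨i, M⟩)
  have hFh : ∀ i, (F i).IsHomogeneous (e i + 1) := fun i => frm_homog _
  have hGh : ∀ i, (G i).IsHomogeneous (e i + 1) := fun i => frm_homog _
  have hder : ∀ i, D (eval z (F i)) = eval z (G i) + ∑ l, eval z (pderiv l (F i)) * D (z l) := by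
    intro i
    have h1 : F i = SS (fun M => c ⟨i, M⟩) (fun M => mono ℚ M.1) := frm_SS _
    have h2 : G i = SS (fun M => D (c ⟨i, M⟩)) (fun M => mono ℚ M.1) := frm_SS _
    rw [h1, h2, SS_der]
  have hder2 : ∀ i a, D (eval z (pderiv a (F i))) = eval z (pderiv a (G i)) +
      ∑ l, eval z (pderiv l (pderiv a (F i))) * D (z l) := by
    intro i a
    have h1 : F i = SS (fun M => c ⟨i, M⟩) (fun M => mono ℚ M.1) := frm_SS _
    have h2 : G i = SS (fun M => D (c ⟨i, M⟩)) (fun M => mono ℚ M.1) := frm_SS _
    rw [h1, h2, SS_pd, SS_pd, SS_der]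
  set R : Fin (n + 1) → k := fun a => ∑ i : A, g i * eval z (pderiv a (F i)) with hR
  have hRs : ∀ a : Fin (n + 1), R a = 0 := by
    intro a
    have := congrFun hg a
    rw [Finset.sum_apply] at this
    exact this
  have hDR : ∀ a, z a * D (R a) = 0 := by
    intro a
    rw [hRs, map_zero, mul_zero]
  have hmain : ∑ i : A, g i * eval z (G i) = 0 := by
    have h1 : ∑ a, z a * D (R a) = 0 := Finset.sum_eq_zero fun a _ => hDR a
    have h2 : ∀ a, z a * D (R a) = ∑ i : A, (g i * (z a * eval z (pderiv a (G i))) +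
        g i * (∑ l, z a * eval z (pderiv l (pderiv a (F i))) * D (z l)) +
        D (g i) * (z a * eval z (pderiv a (F i)))) := by
      intro a
      rw [hR]
      simp only [map_sum, Derivation.leibniz, hder2, smul_eq_mul]
      rw [Finset.mul_sum]
      refine Finset.sum_congr rfl fun i _ => ?_
      have h3 : ∑ l, z a * eval z (pderiv l (pderiv a (F i))) * D (z l) =
          z a * ∑ l, eval z (pderiv l (pderiv a (F i))) * D (z l) := by
        rw [Finset.mul_sum]
        exact Finset.sum_congr rfl fun l _ => by ring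
      rw [h3]
      ring
    rw [Finset.sum_congr rfl fun a _ => h2 a, Finset.sum_comm] at h1
    rw [← h1]
    refine Finset.sum_congr rfl fun i _ => ?_
    rw [Finset.sum_add_distrib, Finset.sum_add_distrib, ← Finset.mul_sum, ← Finset.mul_sum,
      ← Finset.mul_sum, euler _ _ (hGh i), euler _ _ (hFh i), hA i i.2, Finset.sum_comm]
    have h4 : ∀ l, ∑ a, z a * eval z (pderiv l (pderiv a (F i))) * D (z l) =
        (e i : k) * (eval z (pderiv l (F i)) * D (z l)) := by
      intro l
      rw [← Finset.sum_mul, euler2 _ _ (hFh i)]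
      ring
    rw [Finset.sum_congr rfl fun l _ => h4 l, ← Finset.mul_sum]
    have h5 := hder i
    rw [hA i i.2, map_zero] at h5
    push_cast
    linear_combination (g i * (e i : k)) * h5
  have hG0 : ∀ i : A, eval z (G i) = if i = i0 then z b ^ (e i0 + 1) else 0 := by
    intro i
    change eval z (frm fun M => D (c ⟨i, M⟩)) = _
    unfold frm
    rw [map_sum]
    beta_reduce
    by_cases hi : i = i0
    · subst hi
      rw [if_pos rfl, Finset.sum_eq_single M0]
      · rw [map_mul, eval_C, hD, if_pos rfl, one_mul, eval_mono, Finset.prod_eq_single b]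
        · simp [M0]
        · intro j _ hj
          simp [M0, Pi.single_eq_of_ne hj]
        · simp
      · intro M _ hM
        rw [map_mul, eval_C, hD, if_neg, zero_mul]
        intro h
        apply hM
        simpa only [Sigma.mk.injEq, heq_eq_eq, true_and] using h
      · simp
    · rw [if_neg hi]
      refine Finset.sum_eq_zero fun M _ => ?_
      rw [map_mul, eval_C, hD, if_neg, zero_mul]
      intro h
      apply hi
      exact Subtype.ext (congrArg Sigma.fst h)
  rw [Finset.sum_congr rfl fun i _ => by rw [hG0 i]] at hmain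
  simp only [mul_ite, mul_zero, Finset.sum_ite_eq', Finset.mem_univ, if_true] at hmain
  exact (mul_eq_zero.1 hmain).resolve_right (pow_ne_zero _ hb')

end Pool.Agent.H34.VMP
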